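import Pool.Agent.Helper67.NO.St1

/-! # Project NO (MP_26be5b_ag), module FLW (flow identity) -/

set_option autoImplicit false

namespace Pool.Agent.Helper78.NO

open Pool.Agent.Helper67.NO
open Matrix
open scoped Matrix.Norms.Frobenius ContDiff Topology

section

variable {ι κ : Type} [Fintype ι] [DecidableEq ι] [Fintype κ] [DecidableEq κ] {lev : κ → ℕ}

omit [DecidableEq ι] [DecidableEq κ] in
private theorem lev0LR {x y : Matrix (ι ⊕ κ) (ι ⊕ κ) ℂ} (hx : Low lev x) (hy : Rai lev y) :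
    Lev0 lev (x * y) := by
  intro p q hpq
  rw [Matrix.mul_apply] at hpq
  obtain ⟨r, -, hr⟩ := Finset.exists_ne_zero_of_sum_ne_zero hpq
  have h1 := hx p r (left_ne_zero_of_mul hr)
  have h2 := hy r q (right_ne_zero_of_mul hr)
  omega

omit [Fintype ι] [DecidableEq ι] [Fintype κ] [DecidableEq κ] in
private theorem lev0Sub {x y : Matrix (ι ⊕ κ) (ι ⊕ κ) ℂ} (hx : Lev0 lev x) (hy : Lev0 lev y) :
    Lev0 lev (x - y) := by
  intro p q hpq
  by_cases h : x p q = 0
  · by_cases h' : y p q = 0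
    · exact absurd (by rw [Matrix.sub_apply, h, h', sub_zero]) hpq
    · exact hy p q h'
  · exact hx p q h

end

theorem pFLW (h1 : StBL) (h2 : StBDA) (h3 : StALG) (h4 : StLVL) : StFLW := by
  intro ι κ _ _ _ _ lev A H a b hCh hmom
  obtain ⟨ha, hb, hab⟩ := hCh
  obtain ⟨b1, b2, b3, -, -, b6, -, -⟩ := h1 ι κ lev
  obtain ⟨c1, c2, c3, -, -, c6, -⟩ := h2 ι κ
  have a0 : ∀ x : Matrix ι ι ℂ, a * bd x 0 = 0 := fun x => (b2 a ha x).1
  have a1 : ∀ x : Matrix ι ι ℂ, bd x 0 * aᴴ = 0 := fun x => (b2 a ha x).2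
  have e0 : ∀ x : Matrix ι ι ℂ, bd x 0 * b = 0 := fun x => (b3 b hb x).1
  have e1 : ∀ x : Matrix ι ι ℂ, bᴴ * bd x 0 = 0 := fun x => (b3 b hb x).2
  obtain ⟨X, hX⟩ : ∃ X, X = aᴴ := ⟨_, rfl⟩
  obtain ⟨Y, hY⟩ : ∃ Y, Y = bᴴ := ⟨_, rfl⟩
  obtain ⟨S, hS⟩ : ∃ S, S = a * X - Y * b := ⟨_, rfl⟩
  have hS' : S = X * a - b * Y + bd H 0 := by
    rw [hS, ← hmom, hX, hY]
    unfold mom br
    abel
  -- `S` preserves levels
  have hL : Lev0 lev S := by
    rw [hS, hX, hY]
    refine lev0Sub (lev0LR ha ((b6 a).1.1 ha)) (lev0LR ((b6 b).2.1 hb) hb)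
  obtain ⟨h, η, hη, hSe⟩ := (b1 S).1 hL
  have hhH : h = H := by
    have k1 : S * bd (1 : Matrix ι ι ℂ) 0 = bd H 0 * bd (1 : Matrix ι ι ℂ) 0 := by
      rw [hS', add_mul, sub_mul, mul_assoc, mul_assoc, a0, hY, e1]
      simp
    rw [hSe, (c1 h 1 η 0).1, (c1 H 1 0 0).1] at k1
    have k2 := (c6 _ _ _ _ k1).1
    simpa using k2
  have hSH : Sᴴ = S := by
    rw [hS, hX, hY]
    simp [Matrix.conjTranspose_sub, Matrix.conjTranspose_mul]
  have hηH : η.IsHermitian := by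
    have k1 : bd hᴴ ηᴴ = bd h η := by
      rw [← (c2 h η).1, ← hSe, hSH]
    exact (c6 _ _ _ _ k1).2
  refine ⟨η, hη, hηH, ?_⟩
  rw [hhH] at hSe
  rw [← hSe]
  obtain ⟨D, hD⟩ : ∃ D, D = bd A (0 : Matrix κ κ ℂ) := ⟨_, rfl⟩
  obtain ⟨E, hE⟩ : ∃ E, E = bd Aᴴ (0 : Matrix κ κ ℂ) := ⟨_, rfl⟩
  have hDE : Dᴴ = E := by
    rw [hD, (c2 A 0).1, hE]
    simp
  have hR : a * b = b * a + D := by
    rw [hD, ← hab]
    unfold br
    abel
  have hR' : Y * X = X * Y + E := by
    have k1 := congrArg Matrix.conjTranspose hR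
    rw [Matrix.conjTranspose_mul, Matrix.conjTranspose_add, Matrix.conjTranspose_mul, hDE, ← hX, ← hY] at k1
    exact k1
  -- the two components
  have hv : br S a = a * b * Y - Y * b * a := by
    have k1 : a * S = a * (X * a - b * Y) := by
      rw [hS', mul_add, a0, add_zero]
    unfold br
    rw [k1, hS]
    noncomm_ring
  have hw : br S b = X * a * b - b * a * X := by
    have k1 : S * b = (X * a - b * Y) * b := by
      rw [hS', add_mul, e0, add_zero]
    unfold br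
    rw [k1, hS]
    noncomm_ring
  have hm : br (br S a) X + br (br S b) Y = br D E := by
    have k1 : br (br S a) X + br (br S b) Y =
        (a * b) * (Y * X) - (Y * X) * (a * b) + (X * Y) * (b * a) - (b * a) * (X * Y) := by
      rw [hv, hw]
      unfold br
      noncomm_ring
    have z1 : b * a * E = 0 := by rw [hE, mul_assoc, a0, mul_zero]
    have z2 : D * (X * Y) = 0 := by rw [hD, hX, ← mul_assoc, a1, zero_mul]
    have z3 : X * Y * D = 0 := by rw [hD, hY, mul_assoc, e1, mul_zero]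
    have z4 : E * (b * a) = 0 := by rw [hE, ← mul_assoc, e0, zero_mul]
    have k2 : (b * a + D) * (X * Y + E) - (X * Y + E) * (b * a + D) + (X * Y) * (b * a) -
        (b * a) * (X * Y) = b * a * E + D * (X * Y) - X * Y * D - E * (b * a) + (D * E - E * D) := by
      noncomm_ring
    rw [k1, hR, hR', k2, z1, z2, z3, z4]
    unfold br
    simp
  have hmH : (br (br S a) X + br (br S b) Y)ᴴ = br a (br S a)ᴴ + br b (br S b)ᴴ := by
    unfold br
    rw [hX, hY]
    simp only [Matrix.conjTranspose_add, Matrix.conjTranspose_sub, Matrix.conjTranspose_mul,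
      Matrix.conjTranspose_conjTranspose]
  have hbr : br D E = bd (br A Aᴴ) 0 := by
    rw [hD, hE, (c1 A Aᴴ 0 0).2.2.2]
    unfold br
    simp
  have hbrH : (bd (br A Aᴴ) (0 : Matrix κ κ ℂ))ᴴ = bd (br A Aᴴ) 0 := by
    rw [(c2 _ _).1]
    unfold br
    simp [Matrix.conjTranspose_sub, Matrix.conjTranspose_mul]
  have hdm : dm a b (br S a) (br S b) = (br (br S a) X + br (br S b) Y) +
      (br (br S a) X + br (br S b) Y)ᴴ := by
    rw [hmH, hX, hY]
    unfold dm
    abel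
  rw [hdm, hm, hbr, hbrH, (c1 _ _ _ _).2.1, two_smul, add_zero]

end Pool.Agent.Helper78.NO
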